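import Pool.Agent.L0h94.SL.DefsF
import Pool.Agent.L0h19.RZ.Fin

/-!
# Project SL, module FINA: the final theorem from the parts
-/

set_option autoImplicit false

namespace Pool.Agent.L0h83.SL

open Finset Pool.Agent.W262.RK Pool.Agent.W307.RT Pool.Agent.L0h94.RZ Pool.Agent.L0h94.SL

lemma rank_eq {o : Bool} {u b w : ℕ} {c : ℤ × ℤ} (g : Gd u b w)
    (hR : Pool.Agent.L0h94.FT.Rl c ((mo o u w).toNat, ((b : ℤ) - mo o u w).toNat)) :
    Module.finrank ℤ (Sh c.1 c.2).toAffine.Point =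
      Module.finrank ℤ (EAB (mo o u w) b).toAffine.Point := by
  have h := Pool.Agent.L0h94.FT.rl_rank hR
  unfold Pool.Agent.L0h94.FT.rk4 Pool.Agent.L0h94.FT.rkE at h
  have e1 : (((mo o u w).toNat : ℕ) : ℤ) = mo o u w := Int.toNat_of_nonneg (FinM.mo_nn o u w)
  have e2 : ((((b : ℤ) - mo o u w).toNat : ℕ) : ℤ) = (b : ℤ) - mo o u w :=
    Int.toNat_of_nonneg (FinM.mo_le g)
  simp only at h
  have e3 : EAB (((mo o u w).toNat : ℕ) : ℤ) ((((mo o u w).toNat : ℕ) : ℤ) +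
      ((((b : ℤ) - mo o u w).toNat : ℕ) : ℤ)) = EAB (mo o u w) b := by
    rw [e1, e2]
    congr 1
    ring
  rw [e3] at h
  exact pow_right_injective₀ (by norm_num : (0 : ℝ) < 4) (by norm_num) h

lemma locSol_shift (K : Type) [Field K] (e : ℤ) (r d : Fin 3 → ℤ) :
    LocSol K (fun i => e + r i) d ↔ LocSol K r d := by
  unfold LocSol
  constructor
  · rintro ⟨x, hx⟩
    refine ⟨x - (e : K), fun i => ?_⟩
    obtain ⟨z, hz, hz'⟩ := hx i
    refine ⟨z, hz, ?_⟩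
    rw [← hz']
    push_cast
    ring
  · rintro ⟨x, hx⟩
    refine ⟨x + (e : K), fun i => ?_⟩
    obtain ⟨z, hz, hz'⟩ := hx i
    refine ⟨z, hz, ?_⟩
    rw [← hz']
    push_cast
    ring

lemma selSet_shift (e : ℤ) (r : Fin 3 → ℤ) : SelSet (fun i => e + r i) = SelSet r := by
  unfold SelSet
  ext d
  constructor
  · rintro ⟨h1, h2, h3, h4⟩
    exact ⟨h1, h2, (locSol_shift ℝ e r d).1 h3, fun p _ => (locSol_shift ℚ_[p] e r d).1 (h4 p)⟩
  · rintro ⟨h1, h2, h3, h4⟩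
    exact ⟨h1, h2, (locSol_shift ℝ e r d).2 h3, fun p _ => (locSol_shift ℚ_[p] e r d).2 (h4 p)⟩

lemma cubic {o : Bool} {u b w : ℕ} {c : ℤ × ℤ} (g : Gd u b w)
    (hR : Pool.Agent.L0h94.FT.Rl c ((mo o u w).toNat, ((b : ℤ) - mo o u w).toNat)) :
    ∃ e : ℤ, ∀ x : ℚ, x ^ 3 + (c.1 : ℚ) * x + (c.2 : ℚ) =
      (x - ((e + rt o u b w 0 : ℤ) : ℚ)) * (x - ((e + rt o u b w 1 : ℤ) : ℚ)) *
        (x - ((e + rt o u b w 2 : ℤ) : ℚ)) := by
  obtain ⟨e, -, -, h3, h4, h5⟩ := hR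
  have e1 : (((mo o u w).toNat : ℕ) : ℤ) = mo o u w := Int.toNat_of_nonneg (FinM.mo_nn o u w)
  have e2 : ((((b : ℤ) - mo o u w).toNat : ℕ) : ℤ) = (b : ℤ) - mo o u w :=
    Int.toNat_of_nonneg (FinM.mo_le g)
  simp only at h3 h4 h5
  rw [e1, e2] at h3 h4 h5
  refine ⟨e, fun x => ?_⟩
  have r0 : rt o u b w 0 = 0 := rfl
  have r1 : rt o u b w 1 = mo o u w := rfl
  have r2 : rt o u b w 2 = (b : ℤ) := rfl
  rw [r0, r1, r2, h4, h5]
  have hb : (b : ℤ) = -(3 * e + mo o u w) := by linarith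
  have hb' : (b : ℚ) = -(3 * (e : ℚ) + (mo o u w : ℚ)) := by exact_mod_cast hb
  push_cast
  rw [hb']
  ring

lemma srOk {a : ℕ} {u b w : ℕ} {o : Bool} {c : ℤ × ℤ} (hS : S_SEL) (hD : S_DESCN) (g : Gd u b w)
    (ho : corkP o u b w = a + 2)
    (hR : Pool.Agent.L0h94.FT.Rl c ((mo o u w).toNat, ((b : ℤ) - mo o u w).toNat)) : SR a c := by
  refine ⟨?_, ?_⟩
  · rw [rank_eq g hR]
    by_cases h0 : Module.finrank ℤ (EAB (mo o u w) b).toAffine.Point = 0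
    · omega
    · have := hD o u b w g h0
      omega
  · obtain ⟨e, he⟩ := cubic g hR
    refine ⟨fun i => e + rt o u b w i, he, ?_, ?_⟩
    · rw [selSet_shift]
      exact (hS o u b w g).1
    · rw [selSet_shift, (hS o u b w g).2, ho]

open Classical in
/-- module FINA -/
theorem fina (hC : S_CRV) (hR : S_RLI) (hU : S_UP) (hN : S_CNTA) (hS : S_SEL) (hD : S_DESCN) :
    S_FINA := by
  intro a
  obtain ⟨C, hC0, hUp⟩ := hU
  obtain ⟨c0, hc0, X0, hlow⟩ := hN a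
  refine ⟨c0 / (4 * C), by positivity, (X0 + 1) ^ 6, fun H hH => ?_⟩
  set X := Nat.findGreatest (fun x => x ^ 6 ≤ H) H with hX
  have hX6 : X ^ 6 ≤ H := Nat.findGreatest_spec (P := fun x => x ^ 6 ≤ H) (Nat.zero_le H)
    (by simp)
  have hH1 : 1 ≤ H := le_trans (Nat.one_le_pow _ _ (by omega)) hH
  have hXlarge : X0 + 1 ≤ X := by
    refine Nat.le_findGreatest ?_ hH
    exact (Nat.le_self_pow (by norm_num) _).trans hH
  have hXlt : H < (X + 1) ^ 6 := by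
    by_contra hcon
    push Not at hcon
    have h1 : X + 1 ≤ X := Nat.le_findGreatest ((Nat.le_self_pow (by norm_num) _).trans hcon) hcon
    omega
  have hH3 : (H : ℝ) ^ (1 / 3 : ℝ) ≤ 4 * (X : ℝ) ^ 2 := by
    have h1 : (H : ℝ) ≤ (2 * (X : ℝ)) ^ 6 := by
      have h2 : H ≤ (2 * X) ^ 6 := hXlt.le.trans (Nat.pow_le_pow_left (by omega) 6)
      exact_mod_cast h2
    calc (H : ℝ) ^ (1 / 3 : ℝ) ≤ ((2 * (X : ℝ)) ^ 6) ^ (1 / 3 : ℝ) :=
          Real.rpow_le_rpow (by positivity) h1 (by norm_num)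
      _ = (2 * (X : ℝ)) ^ 2 := by
          rw [← Real.rpow_natCast, ← Real.rpow_mul (by positivity), ← Real.rpow_natCast]
          norm_num
      _ = _ := by ring
  set Good := ((Icc 1 X) ×ˢ (Icc 1 X)).filter (fun t : ℕ × ℕ => t.1 + 4 * t.2 ≤ X ∧
    OkA a t.1 (t.1 + 4 * t.2) t.2) with hGood
  have hg : c0 * (X : ℝ) ^ 2 ≤ (Good.card : ℝ) := hlow X (by omega)
  set Z := (Cv 2 H).filter (SR a) with hZd
  -- the curve of a good pair
  have hex : ∀ t ∈ Good, ∃ q : Bool × (ℤ × ℤ), q.2 ∈ Z ∧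
      Pool.Agent.L0h94.FT.Rl q.2 ((mo q.1 t.1 t.2).toNat,
        (((t.1 + 4 * t.2 : ℕ) : ℤ) - mo q.1 t.1 t.2).toNat) := by
    intro t ht
    rw [hGood, mem_filter] at ht
    obtain ⟨-, hle, hok⟩ := ht
    obtain ⟨o, ho⟩ := hok.2
    obtain ⟨c, hc, hRl⟩ := hC o t.1 (t.1 + 4 * t.2) t.2 H hok.1
      ((Nat.pow_le_pow_left hle 6).trans hX6)
    refine ⟨(o, c), ?_, hRl⟩
    rw [hZd, mem_filter]
    exact ⟨hc, srOk hS hD hok.1 ho hRl⟩
  choose! q hq1 hq2 using hex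
  have hcard : Good.card ≤ Z.card := by
    refine card_le_card_of_injOn (fun t => (q t).2) (fun t ht => hq1 t ht) ?_
    intro t ht t' ht' htt
    have h1 := hq2 t ht
    have h2 := hq2 t' ht'
    simp only at htt
    rw [← htt] at h2
    have h3 := hR _ _ _ h1 h2
    rw [mem_coe, hGood, mem_filter] at ht ht'
    have h4 := FinM.inj ht.2.2.1 ht'.2.2.1 h3
    exact Prod.ext h4.1 h4.2
  have h5 := hUp H hH1
  have h6 : (Good.card : ℝ) ≤ Z.card := by exact_mod_cast hcard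
  rw [div_mul_eq_mul_div, div_le_iff₀ (by positivity)]
  calc c0 * ((Cv 2 H).card : ℝ) ≤ c0 * (C * (H : ℝ) ^ (1 / 3 : ℝ)) :=
        mul_le_mul_of_nonneg_left h5 hc0.le
    _ ≤ c0 * (C * (4 * (X : ℝ) ^ 2)) := by
        apply mul_le_mul_of_nonneg_left _ hc0.le
        exact mul_le_mul_of_nonneg_left hH3 hC0.le
    _ = (c0 * (X : ℝ) ^ 2) * (4 * C) := by ring
    _ ≤ (Good.card : ℝ) * (4 * C) := mul_le_mul_of_nonneg_right hg (by positivity)
    _ ≤ (Z.card : ℝ) * (4 * C) := mul_le_mul_of_nonneg_right h6 (by positivity)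

end Pool.Agent.L0h83.SL
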